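import Mathlib
import Pool.Agent.Helper50_DP.Stmts
import Pool.Agent.Helper87_PGL.StepC
import Pool.Agent.Helper11_PGL.Asm
import Pool.Agent.Helper11_PGL.Cert
import Pool.Agent.Helper11_PGL.Conv

/-!
# The inequality of level one for all members
-/

set_option autoImplicit false

open PGH PGL

universe u

namespace Pool.Agent.DP.H87

open PGL.H87

theorem kall_of (hC : CurveStmt.{u}) (hK : KIneqStmt.{u}) (hS : SqStmt.{u})
    (hCert : CertStmt.{u}) : KallStmt.{u} := by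
  classical
  intro n K
  set C' : ℕ := 4 * K + 1 with hC'
  obtain ⟨Λ, hΛ⟩ := partition hC n C'
  refine ⟨2 * K * Λ + 1, ?_⟩
  intro k M V _ _ _ _ _ _ _ _ _ W N y L hN hW hWc hind hred hlin0
  have hN0 : 0 < N := by omega
  obtain ⟨P, hP1, hP2, hP3⟩ := hΛ k N L hind
  have hy0 : y ≠ 0 := by
    rintro rfl
    apply hlin0 ⟨0, hN0⟩
    unfold lin
    simp
  have hL0 : ∀ i, L i ≠ 0 := by
    intro i h
    apply hlin0 i
    unfold lin
    rw [h]
    simp
  -- the curves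
  have hcurve : ∀ I ∈ P, ∃ (B : ℕ) (Tc : Set M), C' * B ≤ I.card ∧ Tc.Finite ∧
      ∀ (E : Type u) [Field E] [Algebra k E] [FF k E] (D : Derivation ℤ E E)
        (cp : Place k E → ℕ) (sc : Finset (Place k E)),
        (∀ c : k, D (algebraMap k E c) = 0) → (∀ w : E, D w = 0 → ∃ c : k, algebraMap k E c = w) →
        (∀ v : Place k E, DGe v D (-(cp v : ℤ))) → (∀ v ∉ sc, cp v = 0) →
        ∀ (S : Subalgebra k M), Tc ⊆ (S : Set M) → ∀ φ : S →ₐ[k] E,
        (∀ i, lin (L i) (fun j => ev φ (algebraMap V M (y j))) ≠ 0) →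
        (fun j => ev φ (algebraMap V M (y j))) ≠ 0 →
        CurveIneq L (fun j => ev φ (algebraMap V M (y j))) cp sc I B := by
    intro I hI
    obtain ⟨R, _, _, _, f, b', Q, lam, hf, hpol, hcard, hinj, hQ⟩ := hP2 I hI
    have hI0 : I.Nonempty := by
      rw [← Finset.card_pos]
      omega
    obtain ⟨i₀, hi₀⟩ := hI0
    obtain ⟨t, htr⟩ := FF.exists_transcendental (L := k) (E := R)
    obtain ⟨del, hdel⟩ := exists_deriv k R htr
    have hdel0 : del ≠ 0 := by
      rintro rfl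
      exact zero_ne_one hdel
    have hcop := hS k V R W (Q i₀) n f y (lam i₀) (L i₀) del hW hWc hf (hL0 i₀) (hQ i₀ hi₀)
      (fun w hw j => hred w hw i₀ j) hy0 hdel0
    obtain ⟨Tc, hTc, hcert⟩ := hCert k V M R n f (fun s => del (f s)) y hcop
    refine ⟨Multiset.card b', Tc, hcard.le, hTc, ?_⟩
    intro E _ _ _ D cp sc hDk hDc hcp hsc S hTS φ hl hy
    exact curveIneq hK f b' I Q lam L _ D del cp sc hf hpol hinj hQ hDk hDc hcp hsc hdel0
      (hcert S hTS E φ) hl hy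
  choose! Bf Tc hB hTc hcineq using hcurve
  set T0 : Set M := (⋃ I ∈ P, Tc I) ∪ (Set.range (fun j => algebraMap V M (y j)) ∪
    Set.range (fun i => (algebraMap V M (lin (L i) y))⁻¹)) with hT0
  refine ⟨T0, N, ?_, ?_⟩
  · apply Set.Finite.union
    · exact P.finite_toSet.biUnion (fun I hI => hTc I hI)
    · exact (Set.finite_range _).union (Set.finite_range _)
  have hTcs : ∀ I ∈ P, Tc I ⊆ T0 := fun I hI t ht => Or.inl (Set.mem_biUnion hI ht)
  have hyT : ∀ j, algebraMap V M (y j) ∈ T0 := fun j => Or.inr (Or.inl ⟨j, rfl⟩)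
  have hliT : ∀ i, (algebraMap V M (lin (L i) y))⁻¹ ∈ T0 := fun i => Or.inr (Or.inr ⟨i, rfl⟩)
  intro S hTS E _ _ _ φ D cp sc hDk hDc hcp hsc
  set Y : Fin (n + 1) → E := fun j => ev φ (algebraMap V M (y j)) with hYdef
  have hyS : ∀ j, algebraMap V M (y j) ∈ S := fun j => hTS (hyT j)
  have h1 := fun i => lin_ev φ y hyS (L i)
  have hlM0 : ∀ i, algebraMap V M (lin (L i) y) ≠ 0 := by
    intro i
    rw [Ne, map_eq_zero]
    exact hlin0 i
  have hne : ∀ i, lin (L i) Y ≠ 0 := by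
    intro i
    rw [hYdef, (h1 i).2]
    exact ev_ne_zero φ (h1 i).1 (hTS (hliT i)) (hlM0 i)
  have hyE : Y ≠ 0 := by
    intro h
    apply hne ⟨0, hN0⟩
    rw [h]
    unfold lin
    simp
  obtain ⟨α, hα, s₀, hs₀⟩ := exists_isMin (k := k) Y hyE
  have hPI : ∀ I ∈ P, CurveIneq L Y cp sc I (Bf I) := fun I hI =>
    hcineq I hI E D cp sc hDk hDc hcp hsc S ((hTcs I hI).trans hTS) φ hne hyE
  choose s₁ hs₁ using fun I : {I // I ∈ P} => hPI I.1 I.2 α hα
  have hfin : ∀ w : E, ({P : Place k E | P.ord w ≠ 0}).Finite := fun w => finite_support w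
  let S₀ : Finset (Place k E) := s₀ ∪ (P.attach.biUnion s₁) ∪
    (Finset.univ.biUnion fun i => (hfin (lin (L i) Y)).toFinset)
  have hS1 : ∀ I (hI : I ∈ P), s₁ ⟨I, hI⟩ ⊆ S₀ := by
    intro I hI v hv
    simp only [S₀, Finset.mem_union, Finset.mem_biUnion]
    exact Or.inl (Or.inr ⟨⟨I, hI⟩, Finset.mem_attach _ _, hv⟩)
  have hSlin : ∀ v ∉ S₀, ∀ i, v.ord (lin (L i) Y) = 0 := by
    intro v hv i
    by_contra hcon
    apply hv
    simp only [S₀, Finset.mem_union, Finset.mem_biUnion, Finset.mem_univ, true_and,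
      Set.Finite.mem_toFinset]
    exact Or.inr ⟨i, hcon⟩
  refine ⟨α, S₀, ⟨fun v j => (hα v).1 j, fun v => (hα v).2, fun v hv => hs₀ v (fun h => hv ?_)⟩, ?_⟩
  · simp only [S₀, Finset.mem_union]; tauto
  intro s hs hsc'
  set h : ℤ := -∑ v ∈ s, α v with hh
  set C : ℤ := ∑ v ∈ sc, (cp v : ℤ) with hCdef
  have hC0 : 0 ≤ C := Finset.sum_nonneg fun v _ => by positivity
  have hlinge : ∀ (v : Place k E) (i : Fin N), 0 ≤ v.ord (lin (L i) Y) - α v := by
    intro v i
    have h2 : v.Ge (α v) (lin (L i) Y) := by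
      unfold lin
      exact Place.Ge.sum (fun j _ => (v.ge_const (L i j)).mul' ((hα v).1 j) (by simp))
    have h4 := (v.ge_iff (hne i)).1 h2
    omega
  have hsum : ∀ i : Fin N, ∑ v ∈ s, (v.ord (lin (L i) Y) - α v) = h := by
    intro i
    rw [Finset.sum_sub_distrib,
      sum_ord_eq_zero (L := k) (lin (L i) Y) s (fun v hv => hSlin v (fun h => hv (hs h)) i), hh]
    ring
  have hh0 : 0 ≤ h := by
    rw [← hsum ⟨0, hN0⟩]
    exact Finset.sum_nonneg fun v _ => hlinge v _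
  set mx : Fin N → ℤ := fun i => ∑ v ∈ s, max 0 (v.ord (lin (L i) Y) - α v - 1) with hmx
  have hmxs : ∑ v ∈ s, ∑ i, max 0 (v.ord (lin (L i) Y) - α v - 1) = ∑ i, mx i := Finset.sum_comm
  have hsplit : ∑ i, mx i = ∑ I ∈ P, ∑ i ∈ I, mx i + ∑ i ∈ Finset.univ \ P.biUnion id, mx i := by
    rw [← Finset.sum_sdiff (Finset.subset_univ (P.biUnion id)), add_comm]
    congr 1
    rw [Finset.sum_biUnion hP1]
    rfl
  have hone : ∀ I ∈ P, ∑ i ∈ I, mx i ≤ 2 * (Bf I : ℤ) * h + (Bf I : ℤ) * C := by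
    intro I hI
    have h1 := hs₁ ⟨I, hI⟩ s ((hS1 I hI).trans hs) hsc'
    rw [Finset.sum_comm] at h1
    exact h1
  have hrest : ∑ i ∈ Finset.univ \ P.biUnion id, mx i ≤ (Λ : ℤ) * h := by
    have h1 : ∀ i ∈ Finset.univ \ P.biUnion id, mx i ≤ h := by
      intro i _
      rw [← hsum i]
      refine Finset.sum_le_sum (fun v _ => ?_)
      have := hlinge v i
      omega
    refine (Finset.sum_le_sum h1).trans ?_
    rw [Finset.sum_const, nsmul_eq_mul]
    exact mul_le_mul_of_nonneg_right (by exact_mod_cast hP3) hh0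
  set B : ℤ := ∑ I ∈ P, (Bf I : ℤ) with hBdef
  have hB0 : 0 ≤ B := Finset.sum_nonneg fun I _ => by positivity
  have hPsum : ∑ I ∈ P, ∑ i ∈ I, mx i ≤ 2 * B * h + B * C := by
    refine (Finset.sum_le_sum hone).trans (le_of_eq ?_)
    rw [Finset.sum_add_distrib, ← Finset.sum_mul, ← Finset.sum_mul, ← Finset.mul_sum]
  have hBN : (C' : ℤ) * B ≤ N := by
    have h1 : ∑ I ∈ P, I.card = (P.biUnion id).card := by
      rw [Finset.card_biUnion (fun I hI J hJ hIJ => hP1 hI hJ hIJ)]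
      rfl
    have h2 : (P.biUnion id).card ≤ N := by
      have := Finset.card_le_univ (P.biUnion id)
      rwa [Fintype.card_fin] at this
    have h3 : ∑ I ∈ P, C' * Bf I ≤ ∑ I ∈ P, I.card := Finset.sum_le_sum hB
    rw [← Finset.mul_sum] at h3
    have h4 : C' * ∑ I ∈ P, Bf I ≤ N := by omega
    rw [hBdef]
    exact_mod_cast h4
  rw [hmxs, hsplit]
  have hK0 : (0 : ℤ) ≤ K := by positivity
  have e0 : (C' : ℤ) = 4 * K + 1 := by rw [hC']; push_cast; ring
  have e1 : 2 * (K : ℤ) * Λ ≤ N := by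
    have : 2 * K * Λ ≤ N := by omega
    exact_mod_cast this
  have e2 : 2 * ((K : ℤ) * (2 * B * h)) ≤ N * h := by
    have h5 : 4 * (K : ℤ) * B ≤ N := by
      rw [e0] at hBN
      nlinarith
    have h6 := mul_le_mul_of_nonneg_right h5 hh0
    linarith
  have e3 : (K : ℤ) * (B * C) ≤ N * C := by
    have h5 : (K : ℤ) * B ≤ N := by
      rw [e0] at hBN
      nlinarith
    have h6 := mul_le_mul_of_nonneg_right h5 hC0
    linarith
  have e4 : 2 * ((K : ℤ) * (Λ * h)) ≤ N * h := by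
    have h6 := mul_le_mul_of_nonneg_right e1 hh0
    linarith
  have e5 : (K : ℤ) * (∑ I ∈ P, ∑ i ∈ I, mx i + ∑ i ∈ Finset.univ \ P.biUnion id, mx i) ≤
      K * (2 * B * h + B * C + Λ * h) :=
    mul_le_mul_of_nonneg_left (add_le_add hPsum hrest) hK0
  linarith

theorem kall : KallStmt.{u} :=
  kall_of (asmT H11.conv)
    (H60.kineq H60.kred (cop (algK H48.dom)) (H22.setup (H22.setD H48.riem) (H22.setK gauss))
      (H60.mat detl_h8 H18.matr H4.matl math_h8 unit)) asmS H11.cert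

end Pool.Agent.DP.H87
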